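import Pool.Agent.TH549.Cong.FreeMat

/-!
# Free families with algebraically independent parameters
-/

set_option autoImplicit false

open Matrix Matrix.SpecialLinearGroup Cardinal UpperHalfPlane
open scoped Pointwise MatrixGroups

namespace Pool.Agent.TH549.Cong

lemma map_map_eq {S : Type*} (n : S → ℤ) (m : ℤ → S) (L : List (S × Bool))
    (h : ∀ a ∈ L, m (n a.1) = a.1) :
    FreeGroup.map m (FreeGroup.map n (FreeGroup.mk L)) = FreeGroup.mk L := by
  rw [FreeGroup.map.mk, FreeGroup.map.mk, List.map_map]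
  congr 1
  conv_rhs => rw [← List.map_id L]
  apply List.map_congr_left
  intro a ha
  simp only [Function.comp, id]
  rw [h a ha]

theorem free_of_algebraicIndependent {S : Type*} (t : S → ℝ) (ht : AlgebraicIndependent ℤ t) :
    Function.Injective (FreeGroup.lift (fun v : S => (pm (t v) : SL(2, ℝ)))) := by
  classical
  rw [injective_iff_map_eq_one]
  intro w hw
  let Φ : FreeGroup S →* SpecialLinearGroup (Fin 2) (MvPolynomial S ℤ) :=
    FreeGroup.lift (fun v => pm (MvPolynomial.X v))
  have hΦ : ∀ s : S → ℝ, (SpecialLinearGroup.map (MvPolynomial.aeval (R := ℤ) s).toRingHom).comp Φ =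
      FreeGroup.lift (fun v : S => (pm (s v) : SL(2, ℝ))) := by
    intro s
    apply FreeGroup.ext_hom
    intro v
    simp only [Φ, MonoidHom.comp_apply, FreeGroup.lift_apply_of, map_pm]
    simp
  have h1 : Φ w = 1 := by
    have h2 : (SpecialLinearGroup.map (MvPolynomial.aeval (R := ℤ) t).toRingHom) (Φ w) = 1 := by
      rw [← MonoidHom.comp_apply, hΦ]; exact hw
    have hinj : Function.Injective (MvPolynomial.aeval (R := ℤ) t) := ht
    apply Subtype.ext
    apply Matrix.ext
    intro i j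
    apply hinj
    have h3 := congrArg (fun M : SL(2, ℝ) => M.1 i j) h2
    change (MvPolynomial.aeval (R := ℤ) t) ((Φ w).1 i j) = (1 : Matrix (Fin 2) (Fin 2) ℝ) i j at h3
    rw [h3]
    change _ = (MvPolynomial.aeval (R := ℤ) t) ((1 : Matrix (Fin 2) (Fin 2) (MvPolynomial S ℤ)) i j)
    rw [Matrix.one_apply, Matrix.one_apply]
    split_ifs <;> simp
  by_contra hne
  have hL : w.toWord ≠ [] := by
    rw [ne_eq, FreeGroup.toWord_eq_nil_iff]; exact hne
  obtain ⟨a, L', hL'⟩ := List.exists_cons_of_ne_nil hL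
  have : Nonempty S := ⟨a.1⟩
  have hfin : (Set.Finite {v : S | ∃ b, (v, b) ∈ w.toWord}) := by
    apply ((w.toWord.map Prod.fst).toFinset.finite_toSet).subset
    rintro v ⟨b, hb⟩
    simp only [List.coe_toFinset, List.mem_map, Set.mem_setOf_eq]
    exact ⟨(v, b), hb, rfl⟩
  obtain ⟨f, hf⟩ := Set.countable_iff_exists_injOn.mp hfin.countable
  let n : S → ℤ := fun v => (f v : ℤ)
  have hn : Set.InjOn n {v : S | ∃ b, (v, b) ∈ w.toWord} := by
    intro x hx y hy hxy
    exact hf hx hy (Int.ofNat_injective hxy)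
  let m : ℤ → S := Function.invFunOn n {v : S | ∃ b, (v, b) ∈ w.toWord}
  have hm : ∀ b ∈ w.toWord, m (n b.1) = b.1 := by
    intro b hb
    exact hn.leftInvOn_invFunOn (show b.1 ∈ {v : S | ∃ b, (v, b) ∈ w.toWord} from ⟨b.2, hb⟩)
  have h3 : FreeGroup.lift (fun k : ℤ => (pm (3 * (k : ℝ)) : SL(2, ℝ))) (FreeGroup.map n w) = 1 := by
    have h4 := congrArg (fun M => SpecialLinearGroup.map
      (MvPolynomial.aeval (R := ℤ) (fun v => 3 * ((n v : ℤ) : ℝ))).toRingHom M) h1
    rw [← MonoidHom.comp_apply, hΦ, map_one] at h4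
    rw [← h4, ← MonoidHom.comp_apply]
    congr 1
    apply FreeGroup.ext_hom
    intro v
    simp
  have h5 : FreeGroup.map n w = 1 := by
    apply free_int
    rw [h3, map_one]
  have h6 := map_map_eq n m w.toWord hm
  rw [FreeGroup.mk_toWord, h5, map_one] at h6
  exact hne h6.symm

theorem exists_algebraicIndependent {S : Type} (hS : #S ≤ continuum) :
    ∃ t : S → ℝ, AlgebraicIndependent ℤ t := by
  obtain ⟨s, hs⟩ := exists_isTranscendenceBasis ℤ ℝ
  have hcard : continuum ≤ #s := by
    have h1 : Algebra.IsAlgebraic (Algebra.adjoin ℤ (Set.range ((↑) : s → ℝ))) ℝ := hs.isAlgebraic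
    have h2 : #ℝ ≤ max #(Algebra.adjoin ℤ (Set.range ((↑) : s → ℝ))) ℵ₀ :=
      Algebra.IsAlgebraic.cardinalMk_le_max _ _
    have h3 : #(Algebra.adjoin ℤ (Set.range ((↑) : s → ℝ))) = #(MvPolynomial s ℤ) :=
      (Cardinal.mk_congr hs.1.aevalEquiv.toEquiv).symm
    have h4 : #(MvPolynomial s ℤ) ≤ max (max #ℤ #s) ℵ₀ := MvPolynomial.cardinalMk_le_max
    rw [h3, Cardinal.mk_real] at h2
    have h5 : (continuum : Cardinal.{0}) ≤ max #s ℵ₀ := by
      refine h2.trans (max_le (h4.trans ?_) (le_max_right _ _))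
      refine max_le (max_le ?_ (le_max_left _ _)) (le_max_right _ _)
      simp
    rcases le_max_iff.mp h5 with h | h
    · exact h
    · exact absurd (lt_of_lt_of_le Cardinal.aleph0_lt_continuum h) (lt_irrefl _)
  obtain ⟨e⟩ : Nonempty (S ↪ s) := by
    have := hS.trans hcard
    rwa [Cardinal.le_def] at this
  exact ⟨fun v => (e v : ℝ), hs.1.comp e e.injective⟩

/-- Two matrices of `SL(2, ℝ)` with a common fixed point in the upper half plane commute. -/
theorem commute_of_fixed (A B : SL(2, ℝ)) (z : ℍ) (hA : A • z = z) (hB : B • z = z) :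
    A * B = B * A := by
  have key : ∀ A : SL(2, ℝ), A • z = z →
      (A 1 0 : ℂ) * (z : ℂ) ^ 2 + ((A 1 1 : ℂ) - A 0 0) * z - A 0 1 = 0 := by
    intro A hA
    have h1 := coe_specialLinearGroup_apply A z
    rw [hA] at h1
    simp only [Algebra.algebraMap_self, RingHom.id_apply] at h1
    have hne : ((A 1 0 : ℂ) * (z : ℂ) + (A 1 1 : ℂ)) ≠ 0 := by
      intro h0
      rw [h0, div_zero] at h1
      exact z.ne_zero h1
    rw [eq_div_iff hne] at h1
    linear_combination h1
  have h1 := key A hA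
  have h2 := key B hB
  have hz := z.im_ne_zero
  -- real and imaginary parts
  have im1 := congrArg Complex.im h1
  have re1 := congrArg Complex.re h1
  have im2 := congrArg Complex.im h2
  have re2 := congrArg Complex.re h2
  simp [sq] at im1 re1 im2 re2
  have e1 : A 1 1 - A 0 0 = -(2 * z.re * A 1 0) := by
    have : z.im * (A 1 0 * (2 * z.re) + (A 1 1 - A 0 0)) = 0 := by linear_combination im1
    rcases mul_eq_zero.mp this with h | h
    · exact absurd h hz
    · linarith
  have e2 : B 1 1 - B 0 0 = -(2 * z.re * B 1 0) := by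
    have : z.im * (B 1 0 * (2 * z.re) + (B 1 1 - B 0 0)) = 0 := by linear_combination im2
    rcases mul_eq_zero.mp this with h | h
    · exact absurd h hz
    · linarith
  have f1 : A 0 1 = -(A 1 0 * (z.re ^ 2 + z.im ^ 2)) := by
    rw [e1] at re1; linear_combination (-1) * re1
  have f2 : B 0 1 = -(B 1 0 * (z.re ^ 2 + z.im ^ 2)) := by
    rw [e2] at re2; linear_combination (-1) * re2
  have g1 : A 1 1 = A 0 0 - 2 * z.re * A 1 0 := by linarith
  have g2 : B 1 1 = B 0 0 - 2 * z.re * B 1 0 := by linarith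
  apply Subtype.ext
  apply Matrix.ext
  intro i j
  change (A.1 * B.1) i j = (B.1 * A.1) i j
  have c : ∀ (M : SL(2, ℝ)) i j, M.1 i j = M i j := fun _ _ _ => rfl
  fin_cases i <;> fin_cases j <;> simp only [Matrix.mul_apply, Fin.sum_univ_two, c,
    Fin.zero_eta, Fin.mk_one, Fin.isValue, f1, f2, g1, g2] <;> ring

end Pool.Agent.TH549.Cong
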