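import Pool.Agent.TH549.Cong.Label

/-!
# Orienting the orbit graph of an action of a free group with commutative stabilizers
-/

set_option autoImplicit false

namespace Pool.Agent.TH549.Cong

open Function

section Words

variable {S : Type*} [DecidableEq S]

lemma toWord_gl_mul (a : S × Bool) (w : FreeGroup S) :
    (w.toWord.head? = some (inv a) ∧ (gl a * w).toWord = w.toWord.tail) ∨
    (w.toWord.head? ≠ some (inv a) ∧ (gl a * w).toWord = a :: w.toWord) := by
  have h1 : (gl a * w).toWord = FreeGroup.reduce (a :: w.toWord) := by
    conv_lhs => rw [← FreeGroup.mk_toWord (x := w)]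
    rw [gl, FreeGroup.mul_mk, FreeGroup.toWord_mk]
    rfl
  rw [h1, FreeGroup.reduce.cons, FreeGroup.reduce_toWord]
  rcases hL : w.toWord with _ | ⟨b, L⟩
  · right
    simp
  · by_cases hb : a.1 = b.1 ∧ a.2 = !b.2
    · left
      refine ⟨?_, ?_⟩
      · simp only [List.head?_cons, Option.some.injEq, inv]
        refine Prod.ext hb.1.symm ?_
        simp [hb.2]
      · simp [hb]
    · right
      refine ⟨?_, ?_⟩
      · simp only [List.head?_cons, ne_eq, Option.some.injEq, inv]
        rintro rfl
        apply hb
        simp
      · simp [hb]

lemma toWord_mul_gl (a : S × Bool) (w : FreeGroup S) :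
    (w.toWord.getLast? = some (inv a) ∧ (w * gl a).toWord = w.toWord.dropLast) ∨
    (w.toWord.getLast? ≠ some (inv a) ∧ (w * gl a).toWord = w.toWord ++ [a]) := by
  have hred : FreeGroup.IsReduced w.toWord := FreeGroup.isReduced_toWord
  by_cases h : w.toWord.getLast? = some (inv a)
  · left
    refine ⟨h, ?_⟩
    obtain ⟨L, hL⟩ : ∃ L, w.toWord = L ++ [inv a] := by
      rw [List.getLast?_eq_some_iff] at h
      exact h
    have h2 : w * gl a = FreeGroup.mk L := by
      rw [← FreeGroup.mk_toWord (x := w), hL, ← FreeGroup.mul_mk, mul_assoc]
      change FreeGroup.mk L * (gl (inv a) * gl a) = FreeGroup.mk L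
      rw [gl_inv, inv_mul_cancel, mul_one]
    have h3 : FreeGroup.IsReduced L := by
      rw [hL] at hred
      unfold FreeGroup.IsReduced at hred ⊢
      exact (List.isChain_append.mp hred).1
    rw [h2, FreeGroup.toWord_mk, h3.reduce_eq, hL]
    simp
  · right
    refine ⟨h, ?_⟩
    have h2 : w * gl a = FreeGroup.mk (w.toWord ++ [a]) := by
      rw [← FreeGroup.mul_mk, FreeGroup.mk_toWord]; rfl
    have h3 : FreeGroup.IsReduced (w.toWord ++ [a]) := by
      unfold FreeGroup.IsReduced at hred ⊢
      rw [List.isChain_append]
      refine ⟨hred, List.isChain_singleton _, ?_⟩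
      intro x hx y hy hxy
      simp only [List.head?_cons, Option.mem_def, Option.some.injEq] at hy
      subst hy
      by_contra hne
      apply h
      rw [Option.mem_def.mp hx]
      simp only [Option.some.injEq]
      refine Prod.ext hxy ?_
      simp only [inv]
      cases h1 : x.2 <;> cases h2 : a.2 <;> simp_all
    rw [h2, FreeGroup.toWord_mk, h3.reduce_eq]

omit [DecidableEq S] in
lemma head_of_head {L : List (S × Bool)} {a : S × Bool} (h : L.head? = some a) :
    ∃ L', L = a :: L' := by
  cases L with
  | nil => simp at h
  | cons b L' =>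
    simp only [List.head?_cons, Option.some.injEq] at h
    exact ⟨L', by rw [h]⟩

/-- no cancellation: head of a left multiple -/
lemma head_left_ne {a : S × Bool} {w : FreeGroup S} (h : w.toWord.head? = some (inv a)) :
    (gl a * w).toWord.head? ≠ some a := by
  have hred : FreeGroup.IsReduced w.toWord := FreeGroup.isReduced_toWord
  obtain ⟨L, hL⟩ := head_of_head h
  rcases toWord_gl_mul a w with ⟨_, h2⟩ | ⟨h1, _⟩
  · rw [h2, hL, List.tail_cons]
    intro hh
    obtain ⟨L', hL'⟩ := head_of_head hh
    rw [hL, hL', FreeGroup.isReduced_cons_cons] at hred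
    have := hred.1 rfl
    simp [inv] at this
  · exact absurd h h1

lemma head_left {a : S × Bool} {w : FreeGroup S} (h : w.toWord.head? ≠ some (inv a)) :
    (gl a * w).toWord = a :: w.toWord := by
  rcases toWord_gl_mul a w with ⟨h1, _⟩ | ⟨_, h2⟩
  · exact absurd h1 h
  · exact h2

lemma conj_head {a : S × Bool} {w : FreeGroup S} (hw : w ≠ 1)
    (h : w.toWord.head? ≠ some (inv a)) :
    (gl a * w * (gl a)⁻¹).toWord.head? = some a := by
  have h1 := head_left h
  have hL : w.toWord ≠ [] := by
    rw [ne_eq, FreeGroup.toWord_eq_nil_iff]; exact hw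
  rw [← gl_inv]
  rcases toWord_mul_gl (inv a) (gl a * w) with ⟨_, h2⟩ | ⟨_, h2⟩
  · rw [h2, h1, List.dropLast_cons_of_ne_nil hL]
    rfl
  · rw [h2, h1]
    rfl

lemma conj_head_ne {a : S × Bool} {w : FreeGroup S}
    (h : w.toWord.head? = some (inv a)) :
    (gl a * w * (gl a)⁻¹).toWord.head? ≠ some a := by
  have h1 := head_left_ne h
  rw [← gl_inv]
  intro hh
  rcases toWord_mul_gl (inv a) (gl a * w) with ⟨_, h2⟩ | ⟨_, h2⟩
  · rw [h2] at hh
    obtain ⟨L', hL'⟩ := head_of_head hh
    have h3 : (gl a * w).toWord ≠ [] := by
      intro h4; rw [h4] at hL'; simp at hL'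
    have h5 := List.dropLast_append_getLast h3
    rw [hL'] at h5
    rw [← h5] at h1
    exact h1 rfl
  · rw [h2] at hh
    rcases h3 : (gl a * w).toWord with _ | ⟨b, L⟩
    · rw [h3] at hh
      simp only [List.nil_append, List.head?_cons, Option.some.injEq] at hh
      exact inv_ne a hh
    · rw [h3] at hh h1
      exact h1 hh

lemma conj_length {a : S × Bool} {w : FreeGroup S}
    (h : w.toWord.head? = some (inv a)) :
    (gl a * w * (gl a)⁻¹).toWord.length < w.toWord.length ∨
    (gl a * w * (gl a)⁻¹).toWord = w.toWord.tail ++ [inv a] := by
  obtain ⟨L, hL⟩ := head_of_head h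
  have h1 : (gl a * w).toWord = L := by
    rcases toWord_gl_mul a w with ⟨_, h2⟩ | ⟨h1, _⟩
    · rw [h2, hL, List.tail_cons]
    · exact absurd h h1
  rw [← gl_inv]
  rcases toWord_mul_gl (inv a) (gl a * w) with ⟨_, h2⟩ | ⟨_, h2⟩
  · left
    rw [h2, h1, hL, List.length_dropLast, List.length_cons]
    omega
  · right
    rw [h2, h1, hL, List.tail_cons]

end Words

section Orient

variable {S X : Type*} [MulAction (FreeGroup S) X]

/-- **Orientation of the orbit graph.** -/
theorem exists_orientation
    (hcomm : ∀ (x : X) (g h : FreeGroup S), g • x = x → h • x = x → g * h = h * g) :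
    ∃ nxt : X → Option (S × Bool),
      (∀ x v, nxt x = some (v, true) ∨ nxt (gl (v, true) • x) = some (v, false)) ∧
      (∀ x a, nxt x = some a → nxt (gl a • x) ≠ some (inv a)) ∧
      (∀ x, ∃ n : ℕ, nxt ((stepMap nxt)^[n] x) = none ∨
        (stepMap nxt)^[n] x ∈ periodicPts (stepMap nxt)) := by
  classical
  -- representatives of the orbits
  let rep : X → X := fun x => Quotient.out (Quotient.mk (MulAction.orbitRel (FreeGroup S) X) x)
  have hrep : ∀ x, ∃ g : FreeGroup S, g • rep x = x := by
    intro x
    have h1 : (Quotient.mk (MulAction.orbitRel (FreeGroup S) X) (rep x)) =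
        Quotient.mk (MulAction.orbitRel (FreeGroup S) X) x := Quotient.out_eq _
    have h2 := Quotient.exact h1.symm
    exact h2
  have hrep2 : ∀ (g : FreeGroup S) x, rep (g • x) = rep x := by
    intro g x
    have : Quotient.mk (MulAction.orbitRel (FreeGroup S) X) (g • x) =
        Quotient.mk (MulAction.orbitRel (FreeGroup S) X) x := Quotient.sound ⟨g, rfl⟩
    change Quotient.out _ = Quotient.out _
    rw [this]
  choose g hg using hrep
  -- a nontrivial element of the stabilizer, if there is one
  have hc : ∀ y : X, ∃ c : FreeGroup S, c • y = y ∧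
      (c = 1 → ∀ h : FreeGroup S, h • y = y → h = 1) := by
    intro y
    by_cases h : ∀ h : FreeGroup S, h • y = y → h = 1
    · exact ⟨1, one_smul _ _, fun _ => h⟩
    · push Not at h
      obtain ⟨c, hc, hc1⟩ := h
      exact ⟨c, hc, fun h => absurd h hc1⟩
  choose c hc hc1 using hc
  let W : X → FreeGroup S := fun x => if c (rep x) = 1 then g x else g x * c (rep x) * (g x)⁻¹
  have hWfree : ∀ x, c (rep x) = 1 → ∀ a : FreeGroup S, W (a • x) = a * W x := by
    intro x hx a
    have e1 : W (a • x) = g (a • x) := by
      simp only [W, hrep2]; rw [if_pos hx]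
    have e2 : W x = g x := by
      simp only [W]; rw [if_pos hx]
    rw [e1, e2]
    have h1 : ((a * g x)⁻¹ * g (a • x)) • rep x = rep x := by
      rw [mul_smul, inv_smul_eq_iff, mul_smul, hg x]
      have := hg (a • x)
      rw [hrep2] at this
      exact this
    have h2 := hc1 (rep x) hx _ h1
    rw [inv_mul_eq_one] at h2
    exact h2.symm
  have hWstab : ∀ x, c (rep x) ≠ 1 → ∀ a : FreeGroup S, W (a • x) = a * W x * a⁻¹ := by
    intro x hx a
    have e1 : W (a • x) = g (a • x) * c (rep x) * (g (a • x))⁻¹ := by
      simp only [W, hrep2]; rw [if_neg hx]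
    have e2 : W x = g x * c (rep x) * (g x)⁻¹ := by
      simp only [W]; rw [if_neg hx]
    rw [e1, e2]
    have h1 : ((a * g x)⁻¹ * g (a • x)) • rep x = rep x := by
      rw [mul_smul, inv_smul_eq_iff, mul_smul, hg x]
      have := hg (a • x)
      rw [hrep2] at this
      exact this
    have h2 := hcomm _ _ _ h1 (hc (rep x))
    have h3 : g (a • x) = (a * g x) * ((a * g x)⁻¹ * g (a • x)) := by group
    rw [h3]
    generalize (a * g x)⁻¹ * g (a • x) = k at h2
    rw [mul_inv_rev]
    calc a * g x * k * c (rep x) * (k⁻¹ * (a * g x)⁻¹)
        = a * g x * (k * c (rep x)) * k⁻¹ * (a * g x)⁻¹ := by group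
      _ = a * g x * (c (rep x) * k) * k⁻¹ * (a * g x)⁻¹ := by rw [h2]
      _ = a * (g x * c (rep x) * (g x)⁻¹) * a⁻¹ := by group
  have hWne : ∀ x, c (rep x) ≠ 1 → W x ≠ 1 := by
    intro x hx h
    have e2 : W x = g x * c (rep x) * (g x)⁻¹ := by
      simp only [W]; rw [if_neg hx]
    rw [e2] at h
    apply hx
    have := congrArg (fun z => (g x)⁻¹ * z * g x) h
    simpa [mul_assoc] using this
  have hWfix : ∀ x, c (rep x) ≠ 1 → W x • x = x := by
    intro x hx
    have e2 : W x = g x * c (rep x) * (g x)⁻¹ := by
      simp only [W]; rw [if_neg hx]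
    rw [e2, mul_smul, mul_smul]
    have h1 : (g x)⁻¹ • x = rep x := by rw [inv_smul_eq_iff, hg]
    rw [h1, hc, hg]
  let nxt : X → Option (S × Bool) := fun x => (W x).toWord.head?.map inv
  have hnxt : ∀ x a, nxt x = some a ↔ (W x).toWord.head? = some (inv a) := by
    intro x a
    simp only [nxt, Option.map_eq_some_iff]
    constructor
    · rintro ⟨b, hb, rfl⟩
      rw [inv_inv, hb]
    · intro h
      exact ⟨inv a, h, inv_inv a⟩
  have hnone : ∀ x, nxt x = none ↔ (W x).toWord = [] := by
    intro x
    simp only [nxt, Option.map_eq_none_iff, List.head?_eq_none_iff]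
  refine ⟨nxt, ?_, ?_, ?_⟩
  · intro x v
    by_cases h : (W x).toWord.head? = some (inv (v, true))
    · left; rw [hnxt]; exact h
    · right
      rw [hnxt]
      have e : inv ((v, false) : S × Bool) = (v, true) := rfl
      rw [e]
      by_cases hx : c (rep x) = 1
      · rw [hWfree x hx, head_left h]; rfl
      · rw [hWstab x hx]
        exact conj_head (hWne x hx) h
  · intro x a h
    rw [hnxt] at h
    rw [ne_eq, hnxt, inv_inv]
    by_cases hx : c (rep x) = 1
    · rw [hWfree x hx]; exact head_left_ne h
    · rw [hWstab x hx]; exact conj_head_ne h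
  · -- eventually periodic or at the root
    have hmain : ∀ N : ℕ, ∀ x, (W x).toWord.length ≤ N → ∃ n : ℕ,
        nxt ((stepMap nxt)^[n] x) = none ∨
        (stepMap nxt)^[n] x ∈ periodicPts (stepMap nxt) := by
      intro N
      induction N with
      | zero =>
        intro x hx
        refine ⟨0, Or.inl ?_⟩
        rw [Function.iterate_zero, id, hnone]
        exact List.length_eq_zero_iff.mp (by omega)
      | succ N ih =>
        intro x hx
        -- if the length drops at some time we are done
        by_cases hdrop : ∃ n : ℕ, (W ((stepMap nxt)^[n] x)).toWord.length ≤ N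
        · obtain ⟨n, hn⟩ := hdrop
          obtain ⟨m, hm⟩ := ih _ hn
          refine ⟨m + n, ?_⟩
          rw [Function.iterate_add_apply]
          exact hm
        · push Not at hdrop
          have hlen : (W x).toWord.length = N + 1 := le_antisymm hx (by
            have := hdrop 0; simpa using this)
          by_cases hxc : c (rep x) = 1
          · -- the length drops in a free orbit
            exfalso
            have hne : (W x).toWord ≠ [] := by
              intro h; rw [h] at hlen; simp at hlen
            obtain ⟨b, L, hL⟩ := List.exists_cons_of_ne_nil hne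
            have ha : nxt x = some (inv b) := by
              rw [hnxt, hL, inv_inv]; rfl
            have h1 := hdrop 1
            rw [Function.iterate_one, stepMap_some ha, hWfree x hxc] at h1
            rcases toWord_gl_mul (inv b) (W x) with ⟨_, h2⟩ | ⟨h2, _⟩
            · rw [h2, hL, List.tail_cons] at h1
              rw [hL, List.length_cons] at hlen
              omega
            · apply h2
              rw [hL, inv_inv]; rfl
          · -- rotation
            refine ⟨0, Or.inr ?_⟩
            rw [Function.iterate_zero, id]
            set L := (W x).toWord with hL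
            have hrot : ∀ j, j ≤ N + 1 →
                (stepMap nxt)^[j] x = (FreeGroup.mk (L.take j))⁻¹ • x ∧
                (W ((stepMap nxt)^[j] x)).toWord = L.drop j ++ L.take j := by
              intro j
              induction j with
              | zero =>
                intro _
                refine ⟨?_, ?_⟩
                · have : (FreeGroup.mk (List.take 0 L)) = (1 : FreeGroup S) := rfl
                  rw [this]; simp
                · simp [hL]
              | succ j ihj =>
                intro hj
                obtain ⟨i1, i2⟩ := ihj (by omega)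
                set y := (stepMap nxt)^[j] x with hy
                have hjL : j < L.length := by omega
                have hd : L.drop j = L[j] :: L.drop (j + 1) := List.drop_eq_getElem_cons hjL
                have hhead : (W y).toWord.head? = some (inv (inv L[j])) := by
                  rw [i2, hd, inv_inv]; rfl
                have ha : nxt y = some (inv L[j]) := by rw [hnxt]; exact hhead
                have hy2 : (stepMap nxt)^[j + 1] x = gl (inv L[j]) • y := by
                  rw [Function.iterate_succ_apply', ← hy, stepMap_some ha]
                have hyc : c (rep y) ≠ 1 := by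
                  rw [i1, hrep2]; exact hxc
                refine ⟨?_, ?_⟩
                · rw [hy2, i1, smul_smul, gl_inv, ← mul_inv_rev, List.take_succ_eq_append_getElem hjL,
                    ← FreeGroup.mul_mk]
                  rfl
                · rw [hy2, hWstab y hyc]
                  rcases conj_length hhead with h | h
                  · exfalso
                    have h3 := hdrop (j + 1)
                    rw [hy2, hWstab y hyc] at h3
                    have h4 : (W y).toWord.length = N + 1 := by
                      rw [i2, List.length_append, List.length_drop, List.length_take]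
                      omega
                    omega
                  · rw [h, inv_inv, i2, hd]
                    simp only [List.cons_append, List.tail_cons, List.append_assoc]
                    rw [List.take_succ_eq_append_getElem hjL]
            refine ⟨N + 1, by omega, ?_⟩
            have h1 := (hrot (N + 1) le_rfl).1
            have h2 : L.take (N + 1) = L := List.take_of_length_le (by omega)
            change (stepMap nxt)^[N + 1] x = x
            rw [h1, h2, hL, FreeGroup.mk_toWord, inv_smul_eq_iff]
            exact (hWfix x hxc).symm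
    intro x
    exact hmain _ x le_rfl

end Orient

end Pool.Agent.TH549.Cong
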