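import Mathlib

/-!
# A free family of continuum many parabolic elements of `SL(2, ℝ)`
-/

set_option autoImplicit false

open Matrix Matrix.SpecialLinearGroup Cardinal UpperHalfPlane
open scoped Pointwise MatrixGroups

namespace Pool.Agent.TH549.Cong

/-- The parabolic matrix with parameter `t`; it fixes the boundary point `t`. -/
def pm {R : Type*} [CommRing R] (t : R) : SpecialLinearGroup (Fin 2) R :=
  ⟨!![1 + 2 * t, -2 * t ^ 2; 2, 1 - 2 * t], by rw [Matrix.det_fin_two_of]; ring⟩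

lemma pm_coe {R : Type*} [CommRing R] (t : R) :
    (pm t : SpecialLinearGroup (Fin 2) R).1 =
      !![1 + 2 * t, -2 * t ^ 2; 2, 1 - 2 * t] := rfl

lemma map_pm {R R' : Type*} [CommRing R] [CommRing R'] (f : R →+* R') (t : R) :
    SpecialLinearGroup.map f (pm t) = pm (f t) := by
  apply Subtype.ext
  rw [pm_coe]
  change (f.mapMatrix (pm t).1) = _
  rw [pm_coe]
  ext i j
  fin_cases i <;> fin_cases j <;> simp [map_ofNat]

lemma pm_pow {R : Type*} [CommRing R] (t : R) (m : ℕ) :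
    (pm t ^ m : SpecialLinearGroup (Fin 2) R).1 =
      !![1 + 2 * m * t, -2 * m * t ^ 2; 2 * m, 1 - 2 * m * t] := by
  induction m with
  | zero =>
    change (1 : Matrix (Fin 2) (Fin 2) R) = _
    ext i j
    fin_cases i <;> fin_cases j <;> simp
  | succ m ih =>
    rw [pow_succ]
    change (pm t ^ m : SpecialLinearGroup (Fin 2) R).1 * (pm t).1 = _
    rw [ih, pm_coe]
    ext i j
    fin_cases i <;> fin_cases j <;>
      simp [Matrix.mul_apply, Fin.sum_univ_two] <;> ring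

/-- The action of the parabolic powers in the coordinate centred at the fixed point. -/
lemma pm_pow_smul (t : ℝ) (m : ℕ) (z : ℍ) :
    (((pm t ^ m : SL(2, ℝ)) • z : ℍ) : ℂ) - t =
      ((z : ℂ) - t) / (2 * m * ((z : ℂ) - t) + 1) := by
  rw [coe_specialLinearGroup_apply]
  have e00 : (pm t ^ m : SL(2, ℝ)) 0 0 = 1 + 2 * m * t := by
    change (pm t ^ m : SL(2, ℝ)).1 0 0 = _
    rw [pm_pow]; rfl
  have e01 : (pm t ^ m : SL(2, ℝ)) 0 1 = -2 * m * t ^ 2 := by
    change (pm t ^ m : SL(2, ℝ)).1 0 1 = _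
    rw [pm_pow]; rfl
  have e10 : (pm t ^ m : SL(2, ℝ)) 1 0 = 2 * m := by
    change (pm t ^ m : SL(2, ℝ)).1 1 0 = _
    rw [pm_pow]; rfl
  have e11 : (pm t ^ m : SL(2, ℝ)) 1 1 = 1 - 2 * m * t := by
    change (pm t ^ m : SL(2, ℝ)).1 1 1 = _
    rw [pm_pow]; rfl
  rw [e00, e01, e10, e11]
  simp only [Algebra.algebraMap_self, RingHom.id_apply]
  have hne : (2 * m * ((z : ℂ) - t) + 1) ≠ 0 := by
    intro h
    have him := congrArg Complex.im h
    simp at him
    have hz := z.im_ne_zero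
    rcases him with h1 | h1
    · subst h1
      simp at h
    · exact hz h1
  have hden : ((((2 * m : ℝ) : ℂ)) * (z : ℂ) + ((1 - 2 * m * t : ℝ) : ℂ)) =
      2 * m * ((z : ℂ) - t) + 1 := by push_cast; ring
  rw [hden, div_sub' hne]
  congr 1
  push_cast
  ring

lemma pm_smul (t : ℝ) (z : ℍ) :
    (((pm t : SL(2, ℝ)) • z : ℍ) : ℂ) - t = ((z : ℂ) - t) / (2 * ((z : ℂ) - t) + 1) := by
  have := pm_pow_smul t 1 z
  simpa using this

/-- Nonzero powers of the parabolic matrices have no fixed point in the upper half plane. -/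
lemma pm_pow_ne (t : ℝ) (m : ℕ) (hm : 0 < m) (z : ℍ) : (pm t ^ m : SL(2, ℝ)) • z ≠ z := by
  intro h
  have h1 := pm_pow_smul t m z
  rw [h] at h1
  have hs : ((z : ℂ) - t) ≠ 0 := by
    intro h
    have him := congrArg Complex.im h
    simp at him
    exact z.im_ne_zero him
  have hne : (2 * m * ((z : ℂ) - t) + 1) ≠ 0 := by
    intro h
    rw [h, div_zero] at h1
    exact hs h1
  rw [eq_div_iff hne] at h1
  have h2 : ((z : ℂ) - t) * (2 * m * ((z : ℂ) - t)) = 0 := by linear_combination h1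
  have hm' : (m : ℂ) ≠ 0 := by exact_mod_cast hm.ne'
  rcases mul_eq_zero.mp h2 with h3 | h3
  · exact hs h3
  · rcases mul_eq_zero.mp h3 with h4 | h4
    · rcases mul_eq_zero.mp h4 with h5 | h5
      · norm_num at h5
      · exact hm' h5
    · exact hs h4

/-- coordinates of the action -/
lemma pm_coord (t : ℝ) (z : ℍ) :
    ∃ D : ℝ, 0 < D ∧
      (((pm t : SL(2, ℝ)) • z).re - t) * D = 2 * ((z.re - t) ^ 2 + z.im ^ 2) + (z.re - t) ∧
      ((((pm t : SL(2, ℝ)) • z).re - t) ^ 2 + ((pm t : SL(2, ℝ)) • z).im ^ 2) * D =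
        (z.re - t) ^ 2 + z.im ^ 2 := by
  have h := pm_smul t z
  set w := (pm t : SL(2, ℝ)) • z with hw
  have hne : (2 * ((z : ℂ) - t) + 1) ≠ 0 := by
    intro h
    have him := congrArg Complex.im h
    simp at him
    exact z.im_ne_zero him
  rw [eq_div_iff hne] at h
  have hre := congrArg Complex.re h
  have him := congrArg Complex.im h
  simp at hre him
  have hz := z.im_pos
  refine ⟨(2 * (z.re - t) + 1) ^ 2 + 4 * z.im ^ 2, by positivity, ?_, ?_⟩
  · linear_combination (2 * (z.re - t) + 1) * hre + (2 * z.im) * him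
  · linear_combination ((w.re - t) * (2 * (z.re - t) + 1) - w.im * (2 * z.im) + (z.re - t)) * hre +
      ((w.re - t) * (2 * z.im) + w.im * (2 * (z.re - t) + 1) + z.im) * him

/-- coordinates of the action of the inverse -/
lemma pm_inv_coord (t : ℝ) (z : ℍ) :
    ∃ D : ℝ, 0 < D ∧
      (((pm t : SL(2, ℝ))⁻¹ • z).re - t) * D = -2 * ((z.re - t) ^ 2 + z.im ^ 2) + (z.re - t) ∧
      ((((pm t : SL(2, ℝ))⁻¹ • z).re - t) ^ 2 + ((pm t : SL(2, ℝ))⁻¹ • z).im ^ 2) * D =
        (z.re - t) ^ 2 + z.im ^ 2 := by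
  obtain ⟨D, hD, h1, h2⟩ := pm_coord t ((pm t : SL(2, ℝ))⁻¹ • z)
  rw [smul_inv_smul] at h1 h2
  refine ⟨D⁻¹, inv_pos.mpr hD, ?_, ?_⟩
  · field_simp
    linear_combination (-1) * h1 + 2 * h2
  · field_simp
    linear_combination (-1) * h2

/-- The integer parameters `3 n` give a free family. -/
theorem free_int : Function.Injective
    (FreeGroup.lift (fun n : ℤ => (pm (3 * (n : ℝ)) : SL(2, ℝ)))) := by
  have hX0 : ∀ (n : ℤ) (z : ℍ), (z.re - 3 * n) ^ 2 + z.im ^ 2 ≤ z.re - 3 * n →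
      0 < z.re - 3 * n ∧ z.re - 3 * n ≤ 1 := by
    intro n z h
    have hz := z.im_pos
    have h1 : 0 < z.im ^ 2 := by positivity
    constructor
    · nlinarith [sq_nonneg (z.re - 3 * n)]
    · by_contra hcon
      push Not at hcon
      nlinarith [sq_nonneg (z.re - 3 * n)]
  have hY0 : ∀ (n : ℤ) (z : ℍ), (z.re - 3 * n) ^ 2 + z.im ^ 2 < -(z.re - 3 * n) →
      z.re - 3 * n < 0 ∧ -1 ≤ z.re - 3 * n := by
    intro n z h
    have hz := z.im_pos
    have h1 : 0 < z.im ^ 2 := by positivity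
    constructor
    · nlinarith [sq_nonneg (z.re - 3 * n)]
    · by_contra hcon
      push Not at hcon
      nlinarith [sq_nonneg (z.re - 3 * n)]
  refine FreeGroup.injective_lift_of_ping_pong (α := ℍ)
    (a := fun n : ℤ => (pm (3 * (n : ℝ)) : SL(2, ℝ)))
    (X := fun n => {z : ℍ | (z.re - 3 * n) ^ 2 + z.im ^ 2 ≤ z.re - 3 * n})
    (Y := fun n => {z : ℍ | (z.re - 3 * n) ^ 2 + z.im ^ 2 < -(z.re - 3 * n)}) ?_ ?_ ?_ ?_ ?_ ?_
  · intro n
    refine ⟨⟨⟨3 * n + 1 / 2, 1 / 2⟩, by norm_num⟩, ?_⟩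
    change ((3 * n + 1 / 2 : ℝ) - 3 * n) ^ 2 + (1 / 2 : ℝ) ^ 2 ≤ (3 * n + 1 / 2 : ℝ) - 3 * n
    ring_nf
    norm_num
  · intro n m hnm
    rw [Function.onFun, Set.disjoint_left]
    intro z hz hz'
    have h1 := hX0 n z hz
    have h2 := hX0 m z hz'
    apply hnm
    have h3 : (3 * (n : ℝ) - 3 * m) < 1 := by linarith [h1.1, h2.2]
    have h4 : (-1 : ℝ) < 3 * (n : ℝ) - 3 * m := by linarith [h1.2, h2.1]
    have h5 : 3 * n - 3 * m < 1 := by exact_mod_cast h3
    have h6 : -1 < 3 * n - 3 * m := by exact_mod_cast h4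
    omega
  · intro n m hnm
    rw [Function.onFun, Set.disjoint_left]
    intro z hz hz'
    have h1 := hY0 n z hz
    have h2 := hY0 m z hz'
    apply hnm
    have h3 : (3 * (n : ℝ) - 3 * m) < 1 + 1 := by linarith [h1.2, h2.1]
    have h4 : (-1 - 1 : ℝ) < 3 * (n : ℝ) - 3 * m := by linarith [h1.1, h2.2]
    have h5 : 3 * n - 3 * m < 1 + 1 := by exact_mod_cast h3
    have h6 : -1 - 1 < 3 * n - 3 * m := by exact_mod_cast h4
    omega
  · intro n m
    rw [Set.disjoint_left]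
    intro z hz hz'
    have h1 := hX0 n z hz
    have h2 := hY0 m z hz'
    have h3 : (3 * (m : ℝ) - 3 * n) < 1 + 1 + 1 := by linarith [h1.1, h1.2, h2.1, h2.2]
    have h4 : (0 : ℝ) < 3 * (m : ℝ) - 3 * n := by linarith [h1.1, h2.1]
    have h5 : 3 * m - 3 * n < 1 + 1 + 1 := by exact_mod_cast h3
    have h6 : 0 < 3 * m - 3 * n := by exact_mod_cast h4
    omega
  · intro n
    rintro _ ⟨z, hz, rfl⟩
    simp only [Set.mem_compl_iff, Set.mem_setOf_eq, not_lt] at hz
    obtain ⟨D, hD, h1, h2⟩ := pm_coord (3 * n) z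
    simp only [Set.mem_setOf_eq]
    refine le_of_mul_le_mul_right ?_ hD
    rw [h1, h2]
    nlinarith
  · intro n
    rintro _ ⟨z, hz, rfl⟩
    simp only [Set.mem_compl_iff, Set.mem_setOf_eq, not_le] at hz
    obtain ⟨D, hD, h1, h2⟩ := pm_inv_coord (3 * n) z
    simp only [Set.mem_setOf_eq, Pi.inv_apply]
    refine lt_of_mul_lt_mul_right ?_ hD.le
    rw [neg_mul, h1, h2]
    nlinarith

end Pool.Agent.TH549.Cong
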