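import Mathlib

/-!
# Labelling the points of a set on which a free group acts

A functional equation on Boolean values, and the labelling lemma for a star shaped system of
congruences with one complementary congruence at the centre of each star.
-/

set_option autoImplicit false

namespace Pool.Agent.TH549.Cong

open Function

/-- The functional equation `β x = T x (β (p x))` is solvable if every forward orbit of `p` meets a
point at which `T` is constant. -/
theorem exists_bool_solution {X : Type*} (p : X → X) (T : X → Bool → Bool)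
    (h : ∀ x, ∃ n : ℕ, ∀ b c, T (p^[n] x) b = T (p^[n] x) c) :
    ∃ β : X → Bool, ∀ x, β x = T x (β (p x)) := by
  classical
  -- `V n x = T x (T (p x) (… (T (p^[n-1] x) true)))`
  obtain ⟨V, VS⟩ : ∃ V : ℕ → X → Bool, ∀ n x, V (n + 1) x = T x (V n (p x)) :=
    ⟨fun n => Nat.rec (fun _ => true) (fun _ f x => T x (f (p x))) n, fun _ _ => rfl⟩
  have key : ∀ n x, (∀ b c, T (p^[n] x) b = T (p^[n] x) c) →
      ∀ m, n < m → V m x = V (n + 1) x := by
    intro n
    induction n with
    | zero =>
      intro x hx m hm
      obtain ⟨k, rfl⟩ : ∃ k, m = k + 1 := ⟨m - 1, by omega⟩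
      rw [VS, VS]
      exact hx _ _
    | succ n ih =>
      intro x hx m hm
      obtain ⟨k, rfl⟩ : ∃ k, m = k + 1 := ⟨m - 1, by omega⟩
      rw [VS, VS, ih (p x) (by simpa [Function.iterate_succ_apply] using hx) k (by omega)]
  choose N hN using h
  refine ⟨fun x => V (N x + 1) x, fun x => ?_⟩
  have hm1 : N x ≤ max (N x) (N (p x)) := le_max_left _ _
  have hm2 : N (p x) ≤ max (N x) (N (p x)) := le_max_right _ _
  have h1 : V (max (N x) (N (p x)) + 1 + 1) x = V (N x + 1) x :=
    key (N x) x (hN x) _ (by omega)
  have h2 : V (max (N x) (N (p x)) + 1) (p x) = V (N (p x) + 1) (p x) :=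
    key (N (p x)) (p x) (hN (p x)) _ (by omega)
  change V (N x + 1) x = T x (V (N (p x) + 1) (p x))
  rw [← h1, ← h2, VS]

/-- The inverse of a letter. -/
def inv {S : Type*} (a : S × Bool) : S × Bool := (a.1, !a.2)

@[simp] lemma inv_inv {S : Type*} (a : S × Bool) : inv (inv a) = a := by
  simp [inv]

lemma inv_ne {S : Type*} (a : S × Bool) : inv a ≠ a := by
  intro h
  have := congrArg Prod.snd h
  simp [inv] at this

/-- The group element of a letter. -/
def gl {S : Type*} (a : S × Bool) : FreeGroup S := FreeGroup.mk [a]

lemma gl_true {S : Type*} (v : S) : gl (v, true) = FreeGroup.of v := rfl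

lemma gl_inv {S : Type*} (a : S × Bool) : gl (inv a) = (gl a)⁻¹ := by
  simp [gl, inv, FreeGroup.inv_mk, FreeGroup.invRev]

/-- The step along the letter chosen at a point. -/
def stepMap {S X : Type*} [MulAction (FreeGroup S) X] (nxt : X → Option (S × Bool)) (x : X) : X :=
  match nxt x with
  | none => x
  | some a => gl a • x

lemma stepMap_none {S X : Type*} [MulAction (FreeGroup S) X] {nxt : X → Option (S × Bool)} {x : X}
    (h : nxt x = none) : stepMap nxt x = x := by
  simp [stepMap, h]

lemma stepMap_some {S X : Type*} [MulAction (FreeGroup S) X] {nxt : X → Option (S × Bool)} {x : X}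
    {a : S × Bool} (h : nxt x = some a) : stepMap nxt x = gl a • x := by
  simp [stepMap, h]

section Label

variable {S X I : Type*} [MulAction (FreeGroup S) X]
variable (nxt : X → Option (S × Bool)) (root : S → S) (B : S → Set I)

open Classical in
/-- The source set of the congruence of the generator `v`. -/
noncomputable def Ls (v : S) : Set I := B (root v)

open Classical in
/-- The target set of the congruence of the generator `v`. -/
noncomputable def Rs (v : S) : Set I := if root v = v then (B v)ᶜ else B v

/-- The set which is tested at the start of a step along a letter. -/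
noncomputable def Lev (a : S × Bool) : Set I := if a.2 then Ls root B a.1 else Rs root B a.1

/-- The set which is tested at the end of a step along a letter. -/
noncomputable def Arr (a : S × Bool) : Set I := if a.2 then Rs root B a.1 else Ls root B a.1

/-- two members and non members on the same side of another set. -/
lemma exists_same_side {I : Type*} {A L : Set I} (h1 : L.Nonempty) (h2 : L ≠ Set.univ)
    (h : ¬ (A = L ∨ A = Lᶜ)) : ∃ i ∈ L, ∃ j ∉ L, (i ∈ A ↔ j ∈ A) := by
  by_contra hcon
  push Not at hcon
  apply h
  obtain ⟨i0, hi0⟩ := h1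
  obtain ⟨j0, hj0⟩ := (Set.ne_univ_iff_exists_notMem _).mp h2
  have hcon' : ∀ i ∈ L, ∀ j, j ∉ L → ¬ (i ∈ A ↔ j ∈ A) := by
    intro i hi j hj hij
    have := hcon i hi j hj
    tauto
  by_cases h0 : j0 ∈ A
  · right
    have a1 : ∀ i ∈ L, i ∉ A := fun i hi hiA => hcon' i hi j0 hj0 (by tauto)
    have a2 : ∀ j, j ∉ L → j ∈ A := by
      intro j hj
      by_contra hjA
      exact hcon' i0 hi0 j hj (by have := a1 i0 hi0; tauto)
    ext z
    constructor
    · intro hz hzL
      exact a1 z hzL hz
    · intro hz
      exact a2 z hz
  · left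
    have a1 : ∀ i ∈ L, i ∈ A := by
      intro i hi
      by_contra hiA
      exact hcon' i hi j0 hj0 (by tauto)
    have a2 : ∀ j, j ∉ L → j ∉ A := by
      intro j hj hjA
      exact hcon' i0 hi0 j hj (by have := a1 i0 hi0; tauto)
    ext z
    constructor
    · intro hz
      by_contra hzL
      exact a2 z hzL hz
    · intro hz
      exact a1 z hz

variable (hroot : ∀ v, root (root v) = root v) (hinj : Function.Injective B) (i₀ : I)
  (hi₀ : ∀ v, i₀ ∈ B v) (hne : ∀ v, B v ≠ Set.univ)

include i₀ hi₀ hne in
lemma Ls_nonempty (v : S) : (Ls root B v).Nonempty ∧ Ls root B v ≠ Set.univ :=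
  ⟨⟨i₀, hi₀ _⟩, hne _⟩

include i₀ hi₀ hne in
lemma Rs_nonempty (v : S) : (Rs root B v).Nonempty ∧ Rs root B v ≠ Set.univ := by
  unfold Rs
  split_ifs with h
  · refine ⟨?_, ?_⟩
    · rw [Set.nonempty_compl]; exact hne v
    · intro h'
      rw [Set.compl_univ_iff] at h'
      have := hi₀ v
      rw [h'] at this
      exact this
  · exact ⟨⟨i₀, hi₀ v⟩, hne v⟩

include i₀ hi₀ hne in
lemma Lev_nonempty (a : S × Bool) : (Lev root B a).Nonempty ∧ Lev root B a ≠ Set.univ := by
  unfold Lev
  split_ifs
  · exact Ls_nonempty root B i₀ hi₀ hne a.1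
  · exact Rs_nonempty root B i₀ hi₀ hne a.1

/-- the vertex of the star graph at which one leaves -/
noncomputable def kLev (a : S × Bool) : S := if a.2 then root a.1 else a.1

/-- the vertex of the star graph at which one arrives -/
noncomputable def kArr (a : S × Bool) : S := if a.2 then a.1 else root a.1

lemma Lev_eq (a : S × Bool) :
    Lev root B a = B (kLev root a) ∨ Lev root B a = (B (kLev root a))ᶜ := by
  obtain ⟨v, b⟩ := a
  cases b
  · simp only [Lev, kLev, Rs]
    by_cases h : root v = v
    · right; simp [h]
    · left; simp [h]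
  · left; simp [Lev, kLev, Ls]

lemma Arr_eq (a : S × Bool) :
    Arr root B a = B (kArr root a) ∨ Arr root B a = (B (kArr root a))ᶜ := by
  obtain ⟨v, b⟩ := a
  cases b
  · left; simp [Arr, kArr, Ls]
  · simp only [Arr, kArr, Rs]
    by_cases h : root v = v
    · right; simp [h]
    · left; simp [h]

include hinj hi₀ in
/-- If the sets agree up to complement then so do the vertices. -/
lemma key_eq {a b : S × Bool}
    (h : Arr root B a = Lev root B b ∨ Arr root B a = (Lev root B b)ᶜ) :
    kArr root a = kLev root b := by
  apply hinj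
  have e1 := Arr_eq root B a
  have e2 := Lev_eq root B b
  have m1 := hi₀ (kArr root a)
  have m2 := hi₀ (kLev root b)
  rcases e1 with e1 | e1 <;> rcases e2 with e2 | e2 <;> rw [e1, e2] at h <;> rcases h with h | h
  · exact h
  · rw [h] at m1; exact absurd m2 m1
  · rw [h] at m1; exact absurd m2 m1
  · rw [compl_compl] at h; exact h
  · rw [← h] at m2; exact absurd m1 m2
  · exact compl_injective h
  · exact compl_injective h
  · rw [compl_compl] at h; rw [← h] at m2; exact absurd m1 m2

include hroot in
/-- The combinatorial core: two consecutive letters without backtracking, meeting at the same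
vertex. -/
lemma letters {a b : S × Bool} (hab : b ≠ inv a) (h : kArr root a = kLev root b) :
    (a.2 = true → root a.1 = a.1) ∧ (b.2 = false → root b.1 = b.1) := by
  obtain ⟨v, s⟩ := a
  obtain ⟨w, t⟩ := b
  cases s <;> cases t <;> simp only [kArr, kLev, inv, ne_eq, Prod.mk.injEq, if_true,
    Bool.false_eq_true, if_false, Bool.not_false, Bool.not_true, and_true, not_and, forall_const,
    IsEmpty.forall_iff, true_and, reduceCtorEq, not_false_eq_true] at h hab ⊢
  · rw [← h]; exact hroot v
  · exact (hab h.symm).elim
  · rw [h]; exact hroot w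

lemma letters_eq {a b : S × Bool} (hab : b ≠ inv a) (h : kArr root a = kLev root b)
    (ha : root a.1 = a.1) (hb : root b.1 = b.1) : b = a := by
  obtain ⟨v, s⟩ := a
  obtain ⟨w, t⟩ := b
  simp only at ha hb
  cases s <;> cases t <;> simp only [kArr, kLev, inv, ne_eq, Prod.mk.injEq, if_true,
    Bool.false_eq_true, if_false, Bool.not_false, Bool.not_true, and_true, not_and,
    reduceCtorEq, not_false_eq_true, and_false, ha, hb] at h hab ⊢
  · exact h.symm
  · exact absurd h.symm hab
  · exact absurd h.symm hab
  · exact h.symm

include hroot hinj hi₀ hne in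
/-- **The labelling lemma.** -/
theorem exists_label
    (H1 : ∀ x v, nxt x = some (v, true) ∨ nxt (gl (v, true) • x) = some (v, false))
    (H2 : ∀ x a, nxt x = some a → nxt (gl a • x) ≠ some (inv a))
    (H3 : ∀ x, ∃ n : ℕ, nxt ((stepMap nxt)^[n] x) = none ∨
      (stepMap nxt)^[n] x ∈ periodicPts (stepMap nxt))
    (H4 : ∀ v : S, ∀ m : ℕ, 0 < m → ∀ x : X, (FreeGroup.of v) ^ m • x ≠ x) :
    ∃ ℓ : X → I, ∀ x v, ℓ x ∈ Ls root B v ↔ ℓ (FreeGroup.of v • x) ∈ Rs root B v := by
  classical
  set p : X → X := stepMap nxt with hp
  -- the predecessor in a cycle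
  let pred : X → X := fun x => p^[minimalPeriod p x - 1] x
  have hpred : ∀ x ∈ periodicPts p, p (pred x) = x := by
    intro x hx
    have h1 : 0 < minimalPeriod p x := minimalPeriod_pos_of_mem_periodicPts hx
    change p (p^[minimalPeriod p x - 1] x) = x
    rw [← Function.iterate_succ_apply' p, Nat.succ_eq_add_one, Nat.sub_add_cancel h1]
    exact iterate_minimalPeriod
  have hpred2 : ∀ x ∈ periodicPts p, pred (p x) = x := by
    intro x hx
    have hpx : p x ∈ periodicPts p := (bijOn_periodicPts p).mapsTo hx
    have hppx : pred (p x) ∈ periodicPts p := by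
      change p^[minimalPeriod p (p x) - 1] (p x) ∈ periodicPts p
      have : ∀ n, ∀ y ∈ periodicPts p, p^[n] y ∈ periodicPts p := by
        intro n
        induction n with
        | zero => intro y hy; exact hy
        | succ n ih =>
          intro y hy
          rw [Function.iterate_succ_apply]
          exact ih _ ((bijOn_periodicPts p).mapsTo hy)
      exact this _ _ hpx
    exact (bijOn_periodicPts p).injOn hppx hx (hpred _ hpx)
  -- the two admissible labels at each point
  have hl : ∀ x : X, ∃ l : Bool → I, (∀ b, nxt x = some b →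
      (l true ∈ Lev root B b ∧ l false ∉ Lev root B b) ∧
      (∀ a, nxt (pred x) = some a →
        ¬ (Arr root B a = Lev root B b ∨ Arr root B a = (Lev root B b)ᶜ) →
        (l true ∈ Arr root B a ↔ l false ∈ Arr root B a))) := by
    intro x
    rcases hb : nxt x with _ | b
    · exact ⟨fun _ => i₀, fun b h => by simp at h⟩
    · obtain ⟨⟨i1, hi1⟩, hu⟩ := Lev_nonempty root B i₀ hi₀ hne b
      obtain ⟨j1, hj1⟩ := (Set.ne_univ_iff_exists_notMem _).mp hu
      by_cases hc : ∃ a, nxt (pred x) = some a ∧
          ¬ (Arr root B a = Lev root B b ∨ Arr root B a = (Lev root B b)ᶜ)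
      · obtain ⟨a, ha, hna⟩ := hc
        obtain ⟨i, hi, j, hj, hij⟩ := exists_same_side ⟨i1, hi1⟩ hu hna
        refine ⟨fun t => if t then i else j, fun b' hb' => ?_⟩
        simp only [Option.some.injEq] at hb'
        subst hb'
        refine ⟨⟨by simpa using hi, by simpa using hj⟩, fun a' ha' _ => ?_⟩
        rw [ha] at ha'
        simp only [Option.some.injEq] at ha'
        subst ha'
        simpa using hij
      · push Not at hc
        refine ⟨fun t => if t then i1 else j1, fun b' hb' => ?_⟩
        simp only [Option.some.injEq] at hb'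
        subst hb'
        refine ⟨⟨by simpa using hi1, by simpa using hj1⟩, fun a' ha' hna => ?_⟩
        exact absurd (hc a' ha') hna
  choose l hl using hl
  -- the tests
  let T : X → Bool → Bool := fun x b =>
    match nxt x with
    | none => true
    | some a => decide (l (p x) b ∈ Arr root B a)
  have hTn : ∀ x, nxt x = none → ∀ b, T x b = true := by
    intro x hx b
    simp [T, hx]
  have hTs : ∀ x a, nxt x = some a → ∀ b, T x b = decide (l (p x) b ∈ Arr root B a) := by
    intro x a hx b
    simp [T, hx]
  have hconst : ∀ x, ∃ n : ℕ, ∀ b c, T (p^[n] x) b = T (p^[n] x) c := by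
    intro x
    by_contra hcon
    have hnc : ∀ n : ℕ, ¬ ∀ b c, T (p^[n] x) b = T (p^[n] x) c := by
      intro n hn; exact hcon ⟨n, hn⟩
    have hsome : ∀ n : ℕ, ∃ a, nxt (p^[n] x) = some a := by
      intro n
      rcases hb : nxt (p^[n] x) with _ | a
      · exact absurd (fun b c => by rw [hTn _ hb, hTn _ hb]) (hnc n)
      · exact ⟨a, rfl⟩
    choose a ha using hsome
    obtain ⟨n, hn⟩ := H3 x
    rcases hn with hn | hn
    · rw [ha n] at hn; simp at hn
    have hper : ∀ k, n ≤ k → p^[k] x ∈ periodicPts p := by
      intro k hk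
      induction k, hk using Nat.le_induction with
      | base => exact hn
      | succ k _ ih =>
        rw [Function.iterate_succ_apply']
        exact (bijOn_periodicPts p).mapsTo ih
    have hstep : ∀ k, p^[k + 1] x = gl (a k) • p^[k] x := by
      intro k
      rw [Function.iterate_succ_apply']
      exact stepMap_some (ha k)
    -- coincidence of the vertices
    have hkey : ∀ k, n ≤ k → kArr root (a k) = kLev root (a (k + 1)) := by
      intro k hk
      apply key_eq root B hinj i₀ hi₀
      by_contra hne'
      apply hnc k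
      have hpx : p^[k + 1] x = p (p^[k] x) := Function.iterate_succ_apply' p k x
      have h2 := (hl (p^[k + 1] x) (a (k + 1)) (ha (k + 1))).2 (a k)
        (by rw [hpx, hpred2 _ (hper k hk)]; exact ha k) hne'
      rw [hpx] at h2
      intro b c
      rw [hTs _ _ (ha k), hTs _ _ (ha k)]
      cases b <;> cases c <;> simp [h2]
    have hnb : ∀ k, a (k + 1) ≠ inv (a k) := by
      intro k hk
      have := H2 (p^[k] x) (a k) (ha k)
      rw [← hstep k, ha (k + 1)] at this
      exact this (by rw [hk])
    have hrt : ∀ k, n + 1 ≤ k → root (a k).1 = (a k).1 := by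
      intro k hk
      have h1 := letters root hroot (hnb k) (hkey k (by omega))
      obtain ⟨j, rfl⟩ : ∃ j, k = j + 1 := ⟨k - 1, by omega⟩
      have h2 := letters root hroot (hnb j) (hkey j (by omega))
      rcases hs : (a (j + 1)).2 with _ | _
      · exact h2.2 hs
      · exact h1.1 hs
    have heq : ∀ k, n + 1 ≤ k → a k = a (n + 1) := by
      intro k hk
      induction k, hk using Nat.le_induction with
      | base => rfl
      | succ k hk ih =>
        rw [letters_eq root (hnb k) (hkey k (by omega)) (hrt k hk) (hrt (k + 1) (by omega)),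
          ih]
    have hiter : ∀ j, p^[n + 1 + j] x = (gl (a (n + 1))) ^ j • p^[n + 1] x := by
      intro j
      induction j with
      | zero => simp
      | succ j ih =>
        rw [← Nat.add_assoc, hstep, heq _ (by omega), ih, smul_smul, ← pow_succ']
    obtain ⟨m, hm, hm2⟩ := hper (n + 1) (by omega)
    have hfix : (gl (a (n + 1))) ^ m • p^[n + 1] x = p^[n + 1] x := by
      rw [← hiter m, Nat.add_comm (n + 1) m, Function.iterate_add_apply]
      exact hm2
    rcases ha' : a (n + 1) with ⟨v, s⟩
    rw [ha'] at hfix
    cases s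
    · have : gl ((v, false) : S × Bool) = (FreeGroup.of v)⁻¹ := by
        rw [← gl_true, ← gl_inv]; rfl
      rw [this, inv_pow, inv_smul_eq_iff] at hfix
      exact H4 v m hm _ hfix.symm
    · exact H4 v m hm _ hfix
  obtain ⟨β, hβ⟩ := exists_bool_solution p T hconst
  -- the constraint along the chosen letters
  have hcons : ∀ x a, nxt x = some a →
      (l x (β x) ∈ Lev root B a ↔ l (gl a • x) (β (gl a • x)) ∈ Arr root B a) := by
    intro x a hx
    have hpx : p x = gl a • x := stepMap_some hx
    have h1 := (hl x a hx).1
    have h2 : β x = decide (l (p x) (β (p x)) ∈ Arr root B a) := by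
      rw [hβ x, hTs x a hx]
    rw [← hpx]
    by_cases hmem : l (p x) (β (p x)) ∈ Arr root B a
    · rw [decide_eq_true hmem] at h2
      rw [h2]
      exact ⟨fun _ => hmem, fun _ => h1.1⟩
    · rw [decide_eq_false hmem] at h2
      rw [h2]
      exact ⟨fun h => absurd h h1.2, fun h => absurd h hmem⟩
  refine ⟨fun x => l x (β x), fun x v => ?_⟩
  rcases H1 x v with h | h
  · have := hcons x (v, true) h
    simpa [Lev, Arr, gl_true] using this
  · have := hcons _ (v, false) h
    have e : gl ((v, false) : S × Bool) • (gl ((v, true) : S × Bool) • x) = x := by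
      have : gl ((v, false) : S × Bool) = (gl ((v, true) : S × Bool))⁻¹ := by
        rw [← gl_inv]; rfl
      rw [this, inv_smul_smul]
    rw [e] at this
    simpa [Lev, Arr, gl_true] using this.symm

end Label

end Pool.Agent.TH549.Cong
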